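import Mathlib

/-!
Roots of unity and the key geometric lemma for regular polygons with `p` vertices.
-/

set_option autoImplicit false

open Set Filter Topology

namespace Pool.Agent.TH594.Retr

/-- the primitive root of unity -/
noncomputable def om (p : ℕ) : ℂ := Complex.exp (2 * Real.pi * Complex.I / p)

/-- its powers -/
noncomputable def ee (p : ℕ) (k : ZMod p) : ℂ := om p ^ k.val

section
variable {p : ℕ} [Fact p.Prime]

lemma om_prim : IsPrimitiveRoot (om p) p :=
  Complex.isPrimitiveRoot_exp p (Fact.out : p.Prime).ne_zero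

lemma om_norm : ‖om p‖ = 1 :=
  (om_prim (p := p)).norm'_eq_one (Fact.out : p.Prime).ne_zero

lemma ee_norm (k : ZMod p) : ‖ee p k‖ = 1 := by
  rw [ee, norm_pow, om_norm, one_pow]

lemma ee_ne (k : ZMod p) : ee p k ≠ 0 := by
  intro h
  have := ee_norm k
  rw [h, norm_zero] at this
  exact zero_ne_one this

lemma ee_zero : ee p 0 = 1 := by simp [ee]

lemma ee_one : ee p 1 = om p := by
  rw [ee, ZMod.val_one_eq_one_mod, Nat.mod_eq_of_lt (Fact.out : p.Prime).one_lt, pow_one]

lemma ee_add (s t : ZMod p) : ee p (s + t) = ee p s * ee p t := by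
  rw [ee, ee, ee, ZMod.val_add, ← pow_add, ← pow_eq_pow_mod _ om_prim.pow_eq_one]

lemma ee_inj {s t : ZMod p} (h : ee p s = ee p t) : s = t := by
  have := (om_prim (p := p)).pow_inj (ZMod.val_lt s) (ZMod.val_lt t) h
  exact ZMod.val_injective p this

end

/-- the sign -/
def sg (s : Bool) : ℂ := if s then 1 else -1

lemma sg_norm (s : Bool) : ‖sg s‖ = 1 := by cases s <;> simp [sg]

lemma sg_sq (s : Bool) : sg s * sg s = 1 := by cases s <;> simp [sg]

/-- distance from a point of the circle of radius `R` in the complex line of `u` -/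
lemma dist_sq {H : Type} [NormedAddCommGroup H] [InnerProductSpace ℂ H] {u b : H} (hu : ‖u‖ = 1)
    {w : ℂ} (hw : ‖w‖ = 1) (R : ℝ) :
    dist (((R : ℂ) * w) • u) b ^ 2 =
      R ^ 2 + ‖b‖ ^ 2 - 2 * R * ((starRingEnd ℂ) w * inner ℂ u b).re := by
  rw [dist_eq_norm, @norm_sub_sq ℂ, inner_smul_left, norm_smul, norm_mul, hu, hw]
  simp only [map_mul, Complex.conj_ofReal, mul_one, Complex.norm_real, Real.norm_eq_abs, sq_abs]
  have : RCLike.re (((R : ℂ) * (starRingEnd ℂ) w) * inner ℂ u b) =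
      R * ((starRingEnd ℂ) w * inner ℂ u b).re := by
    rw [mul_assoc]
    exact Complex.re_ofReal_mul R _
  rw [this]
  ring

/-- If `w₁ ≠ w₂` are unit complex numbers and `v` is a unit complex number with `v² = w₁ w₂`, and
`Re (w̄₁ z) = Re (w̄₂ z) > 0`, then one of `v, -v` has a larger value. -/
lemma mid_larger {w₁ w₂ v z : ℂ} (h1 : ‖w₁‖ = 1) (hv : ‖v‖ = 1)
    (hvv : v * v = w₁ * w₂) (hne : w₁ ≠ w₂)
    (heq : ((starRingEnd ℂ) w₁ * z).re = ((starRingEnd ℂ) w₂ * z).re)
    (hpos : 0 < ((starRingEnd ℂ) w₁ * z).re) :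
    ((starRingEnd ℂ) w₁ * z).re < ((starRingEnd ℂ) v * z).re ∨
      ((starRingEnd ℂ) w₁ * z).re < ((starRingEnd ℂ) (-v) * z).re := by
  have hvn : (starRingEnd ℂ) v * v = 1 := by
    rw [← Complex.normSq_eq_conj_mul_self, Complex.normSq_eq_norm_sq, hv]
    simp
  have hw1n : (starRingEnd ℂ) w₁ * w₁ = 1 := by
    rw [← Complex.normSq_eq_conj_mul_self, Complex.normSq_eq_norm_sq, h1]
    simp
  obtain ⟨e, he⟩ : ∃ e, e = (starRingEnd ℂ) v * w₁ := ⟨_, rfl⟩
  obtain ⟨y, hy⟩ : ∃ y, y = (starRingEnd ℂ) v * z := ⟨_, rfl⟩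
  -- z = v y, w₁ = v e, w₂ = v ē
  have hz : z = v * y := by rw [hy, ← mul_assoc, mul_comm v, hvn, one_mul]
  have hw1 : w₁ = v * e := by rw [he, ← mul_assoc, mul_comm v, hvn, one_mul]
  have hee : (starRingEnd ℂ) e * e = 1 := by
    rw [he, map_mul, Complex.conj_conj]
    calc v * (starRingEnd ℂ) w₁ * ((starRingEnd ℂ) v * w₁)
        = ((starRingEnd ℂ) v * v) * ((starRingEnd ℂ) w₁ * w₁) := by ring
      _ = 1 := by rw [hvn, hw1n, one_mul]
  have hvne : v ≠ 0 := by
    intro h
    rw [h, norm_zero] at hv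
    exact zero_ne_one hv
  have hene : e ≠ 0 := by
    intro h
    rw [h] at hee
    simp at hee
  have hw2 : w₂ = v * (starRingEnd ℂ) e := by
    have h3 : w₁ * w₂ = w₁ * (v * (starRingEnd ℂ) e) := by
      rw [← hvv, hw1]
      calc v * v = v * v * ((starRingEnd ℂ) e * e) := by rw [hee, mul_one]
        _ = _ := by ring
    have hw1ne : w₁ ≠ 0 := by rw [hw1]; exact mul_ne_zero hvne hene
    exact mul_left_cancel₀ hw1ne h3
  have k1 : (starRingEnd ℂ) w₁ * z = (starRingEnd ℂ) e * y := by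
    rw [hw1, hz, map_mul]
    calc (starRingEnd ℂ) v * (starRingEnd ℂ) e * (v * y)
        = ((starRingEnd ℂ) v * v) * ((starRingEnd ℂ) e * y) := by ring
      _ = _ := by rw [hvn, one_mul]
  have k2 : (starRingEnd ℂ) w₂ * z = e * y := by
    rw [hw2, hz, map_mul, Complex.conj_conj]
    calc (starRingEnd ℂ) v * e * (v * y)
        = ((starRingEnd ℂ) v * v) * (e * y) := by ring
      _ = _ := by rw [hvn, one_mul]
  have k3 : (starRingEnd ℂ) (-v) * z = - y := by
    rw [map_neg, neg_mul, ← hy]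
  rw [k1, k2] at heq
  rw [k1] at hpos
  rw [k1, ← hy, k3]
  simp only [Complex.mul_re, Complex.conj_re, Complex.conj_im, Complex.neg_re] at *
  have he2 : e.im ≠ 0 := by
    intro h
    apply hne
    rw [hw1, hw2]
    congr 1
    apply Complex.ext
    · simp
    · simp [h]
  have hy2 : y.im = 0 := by
    have : e.im * y.im = 0 := by linarith
    rcases mul_eq_zero.1 this with h | h
    · exact absurd h he2
    · exact h
  have hn : e.re ^ 2 + e.im ^ 2 = 1 := by
    have h5 := congrArg Complex.re hee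
    simp only [Complex.mul_re, Complex.conj_re, Complex.conj_im, Complex.one_re] at h5
    linarith
  have hlt : e.re ^ 2 < 1 := by
    have : 0 < e.im ^ 2 := by positivity
    linarith
  have habs : |e.re| < 1 := by
    rw [← sq_lt_one_iff_abs_lt_one]
    exact hlt
  obtain ⟨ha, hb⟩ := abs_lt.1 habs
  rw [hy2] at hpos ⊢
  simp only [mul_zero, sub_zero] at *
  rcases le_total 0 y.re with h | h
  · left
    rcases h.eq_or_lt with h0 | h0
    · rw [← h0] at hpos
      simp at hpos
    · nlinarith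
  · right
    rcases h.eq_or_lt with h0 | h0
    · rw [h0] at hpos
      simp at hpos
    · nlinarith

end Pool.Agent.TH594.Retr
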