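import Mathlib
import Pool.Agent.TH594.Retr.Geom
import Pool.Agent.Helper954.Hopf.D1c

/-!
For every odd prime `p`, every continuous assignment of sets with at most `p - 1` points to the
regular polygons with `p` vertices of a complex Hilbert space of dimension at least `p` moves some
polygon far away.
-/

set_option autoImplicit false
set_option linter.unusedSectionVars false

open Set Filter Topology

namespace Pool.Agent.TH594.Retr

open Pool.Agent.Helper954.Hopf.Dold.D1c (dold_cover)

section abstr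

variable {p : ℕ} [Fact p.Prime]

/-- top sets are unique -/
lemma top_unique {f : ZMod p → ℝ} {S T : Finset (ZMod p)} (hc : S.card = T.card)
    (hS : ∀ k ∈ S, ∀ l ∉ S, f l < f k) (hT : ∀ k ∈ T, ∀ l ∉ T, f l < f k) : S = T := by
  classical
  by_contra hne
  have h1 : ∃ k ∈ S, k ∉ T := by
    by_contra hcon
    push Not at hcon
    exact hne (Finset.eq_of_subset_of_card_le hcon hc.ge)
  have h2 : ∃ l ∈ T, l ∉ S := by
    by_contra hcon
    push Not at hcon
    exact hne (Finset.eq_of_subset_of_card_le hcon hc.le).symm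
  obtain ⟨k, hk, hk'⟩ := h1
  obtain ⟨l, hl, hl'⟩ := h2
  exact lt_asymm (hS k hk l hl') (hT l hl k hk')

/-- **Abstract form.** Let `F s k x` be real functions on `ℂ^p`, continuous off the origin, with
`F s k (ω x) = F s (k + 1) x`. Then for some `x ≠ 0` all functions `k ↦ F s k x` are constant. -/
theorem exists_const (hp : p ≠ 2) (F : Bool → ZMod p → (Fin p → ℂ) → ℝ)
    (hF : ∀ s k x, x ≠ 0 → ContinuousAt (F s k) x)
    (hequi : ∀ s k x, F s k (fun i => om p * x i) = F s (k + 1) x) :
    ∃ x : Fin p → ℂ, x ≠ 0 ∧ ∀ s k l, F s k x = F s l x := by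
  classical
  have hpp : p.Prime := Fact.out
  let P : Bool × Fin (p - 1) → (Fin p → ℂ) → Finset (ZMod p) → Prop := fun j x S =>
    S.card = j.2.val + 1 ∧ ∀ k ∈ S, ∀ l ∉ S, F j.1 l x < F j.1 k x
  let O : Bool × Fin (p - 1) → Set (Fin p → ℂ) := fun j => {x | x ≠ 0 ∧ ∃ S, P j x S}
  let val : Bool × Fin (p - 1) → Finset (ZMod p) → ZMod p := fun j S =>
    -((j.2.val + 1 : ℕ) : ZMod p)⁻¹ * ∑ k ∈ S, k
  let lab : Bool × Fin (p - 1) → (Fin p → ℂ) → ZMod p := fun j x =>
    if h : ∃ S, P j x S then val j h.choose else 0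
  have hlabP : ∀ j x S, P j x S → lab j x = val j S := by
    intro j x S hS
    have hex : ∃ S, P j x S := ⟨S, hS⟩
    have h1 := hex.choose_spec
    have h2 : hex.choose = S := top_unique (h1.1.trans hS.1.symm) h1.2 hS.2
    show (if h : ∃ S, P j x S then val j h.choose else 0) = _
    rw [dif_pos hex, h2]
  have hnhds : ∀ j x S, x ≠ 0 → P j x S → ∀ᶠ y in 𝓝 x, y ≠ 0 ∧ P j y S := by
    intro j x S hx hS
    have h1 : ∀ k ∈ S, ∀ l ∉ S, ∀ᶠ y in 𝓝 x, F j.1 l y < F j.1 k y := by
      intro k hk l hl
      exact (hF j.1 l x hx).eventually_lt (hF j.1 k x hx) (hS.2 k hk l hl)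
    have h2 : ∀ᶠ y in 𝓝 x, ∀ k ∈ S, ∀ l ∉ S, F j.1 l y < F j.1 k y := by
      rw [Filter.eventually_all_finset]
      intro k hk
      have : ∀ᶠ y in 𝓝 x, ∀ l ∈ Sᶜ, F j.1 l y < F j.1 k y := by
        rw [Filter.eventually_all_finset]
        intro l hl
        exact h1 k hk l (Finset.mem_compl.1 hl)
      filter_upwards [this] with y hy l hl
      exact hy l (Finset.mem_compl.2 hl)
    filter_upwards [h2, isOpen_ne.mem_nhds hx] with y hy hy0
    exact ⟨hy0, hS.1, hy⟩
  have hO : ∀ j, IsOpen (O j) := by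
    intro j
    rw [isOpen_iff_mem_nhds]
    rintro x ⟨hx, S, hS⟩
    filter_upwards [hnhds j x S hx hS] with y hy
    exact ⟨hy.1, S, hy.2⟩
  have hlab : ∀ j, ∀ x ∈ O j, ∀ᶠ y in 𝓝 x, lab j y = lab j x := by
    rintro j x ⟨hx, S, hS⟩
    filter_upwards [hnhds j x S hx hS] with y hy
    rw [hlabP j y S hy.2, hlabP j x S hS]
  have hom : ∀ x : Fin p → ℂ, x ≠ 0 → (fun i => om p * x i) ≠ 0 := by
    intro x hx h
    apply hx
    ext i
    have h1 := congrFun h i
    simp only [Pi.zero_apply, mul_eq_zero] at h1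
    rcases h1 with h1 | h1
    · exfalso
      have := om_norm (p := p)
      rw [h1, norm_zero] at this
      exact zero_ne_one this
    · exact h1
  -- shifting the top set
  let shf : Finset (ZMod p) → Finset (ZMod p) := fun S => S.image fun k => k - 1
  have hshf_mem : ∀ S k, k ∈ shf S ↔ k + 1 ∈ S := by
    intro S k
    simp only [shf, Finset.mem_image]
    constructor
    · rintro ⟨a, ha, rfl⟩
      simpa using ha
    · intro h
      exact ⟨k + 1, h, by ring⟩
  have hinj : Function.Injective fun k : ZMod p => k - 1 := fun a b h => by simpa using h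
  have hshf_card : ∀ S, (shf S).card = S.card := fun S => Finset.card_image_of_injective S hinj
  have hshf_sum : ∀ S : Finset (ZMod p), ∑ k ∈ shf S, k = ∑ k ∈ S, k - (S.card : ZMod p) := by
    intro S
    simp only [shf]
    rw [Finset.sum_image fun a _ b _ h => hinj h, Finset.sum_sub_distrib]
    simp
  have hPshift : ∀ j x S, P j x S → P j (fun i => om p * x i) (shf S) := by
    intro j x S hS
    refine ⟨(hshf_card S).trans hS.1, fun k hk l hl => ?_⟩
    rw [hequi, hequi]
    exact hS.2 _ ((hshf_mem S k).1 hk) _ (fun h => hl ((hshf_mem S l).2 h))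
  have hcne : ∀ j : Bool × Fin (p - 1), ((j.2.val + 1 : ℕ) : ZMod p) ≠ 0 := by
    intro j h
    rw [ZMod.natCast_eq_zero_iff] at h
    have h1 := Nat.le_of_dvd (Nat.succ_pos _) h
    have h2 := j.2.isLt
    omega
  have hval1 : (1 : ZMod p).val = 1 := by
    rw [ZMod.val_one_eq_one_mod, Nat.mod_eq_of_lt hpp.one_lt]
  have homfun : ∀ x : Fin p → ℂ,
      (fun i => Complex.exp (2 * Real.pi * Complex.I / p) ^ (1 : ZMod p).val * x i) =
        fun i => om p * x i := by
    intro x
    ext i
    rw [hval1, pow_one]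
    rfl
  obtain ⟨x, hx, hxO⟩ := dold_cover p hp (I := Fin p) (fun _ => 1) (fun _ => one_ne_zero)
    (J := Bool × Fin (p - 1)) (by
      rw [Fintype.card_prod, Fintype.card_bool, Fintype.card_fin, Fintype.card_fin]
      have := hpp.two_le
      omega) O hO lab hlab
    (by
      rintro j x ⟨hx, S, hS⟩
      simp only [homfun]
      exact ⟨hom x hx, shf S, hPshift j x S hS⟩)
    (by
      rintro j x ⟨hx, S, hS⟩
      simp only [homfun]
      rw [hlabP j _ _ (hPshift j x S hS), hlabP j x S hS]
      simp only [val]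
      rw [hshf_sum, hS.1, mul_sub]
      have := hcne j
      rw [neg_mul, neg_mul, inv_mul_cancel₀ this]
      ring)
  refine ⟨x, hx, fun s => ?_⟩
  -- the function is constant
  obtain ⟨k0, -, hk0⟩ := Finset.exists_max_image Finset.univ (fun k => F s k x) Finset.univ_nonempty
  have hall : ∀ k, F s k x = F s k0 x := by
    by_contra hcon
    push Not at hcon
    obtain ⟨l0, hl0⟩ := hcon
    let S : Finset (ZMod p) := Finset.univ.filter fun k => F s k x = F s k0 x
    have hSmem : ∀ k, k ∈ S ↔ F s k x = F s k0 x := by simp [S]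
    have hpos : 0 < S.card := Finset.card_pos.2 ⟨k0, (hSmem k0).2 rfl⟩
    have hlt : S.card < p := by
      have h1 : S.card < (Finset.univ : Finset (ZMod p)).card := by
        apply Finset.card_lt_card
        rw [Finset.ssubset_univ_iff]
        intro h
        have : l0 ∈ S := by rw [h]; exact Finset.mem_univ _
        exact hl0 ((hSmem l0).1 this)
      rwa [Finset.card_univ, ZMod.card] at h1
    refine hxO (s, ⟨S.card - 1, by omega⟩) ⟨hx, S, ?_, ?_⟩
    · show S.card = S.card - 1 + 1
      omega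
    · intro k hk l hl
      show F s l x < F s k x
      rw [(hSmem k).1 hk]
      exact lt_of_le_of_ne (hk0 l (Finset.mem_univ _)) (fun h => hl ((hSmem l).2 h))
  intro k l
  rw [hall k, hall l]

end abstr

section hilbert

variable {p : ℕ} [Fact p.Prime] {H : Type} [NormedAddCommGroup H] [InnerProductSpace ℂ H]

/-- normalisation -/
noncomputable def nrm (ι : (Fin p → ℂ) →L[ℂ] H) (x : Fin p → ℂ) : H := ((‖ι x‖⁻¹ : ℝ) : ℂ) • ι x

lemma nrm_norm {ι : (Fin p → ℂ) →L[ℂ] H} (hι : Function.Injective ι) {x : Fin p → ℂ} (hx : x ≠ 0) :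
    ‖nrm ι x‖ = 1 := by
  have h : ι x ≠ 0 := fun h => hx (hι (by rw [h, map_zero]))
  rw [nrm, norm_smul, Complex.norm_real, norm_inv, norm_norm,
    inv_mul_cancel₀ (norm_ne_zero_iff.2 h)]

lemma nrm_om (ι : (Fin p → ℂ) →L[ℂ] H) (x : Fin p → ℂ) :
    nrm ι (fun i => om p * x i) = om p • nrm ι x := by
  have h : (fun i => om p * x i) = om p • x := by ext i; simp
  rw [h, nrm, nrm, map_smul, norm_smul, om_norm, one_mul, smul_comm]

lemma nrm_cont {ι : (Fin p → ℂ) →L[ℂ] H} (hι : Function.Injective ι) {x : Fin p → ℂ} (hx : x ≠ 0) :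
    ContinuousAt (nrm ι) x := by
  have h : ι x ≠ 0 := fun h => hx (hι (by rw [h, map_zero]))
  unfold nrm
  have h1 : ContinuousAt (fun x => ι x) x := ι.continuous.continuousAt
  refine ContinuousAt.smul ?_ h1
  exact Complex.continuous_ofReal.continuousAt.comp (h1.norm.inv₀ (norm_ne_zero_iff.2 h))

/-- the point of the circle -/
noncomputable def pt (R : ℝ) (s : Bool) (k : ZMod p) (u : H) : H := ((R : ℂ) * (sg s * ee p k)) • u

lemma pt_dist (R : ℝ) (s : Bool) (k : ZMod p) (u v : H) :
    dist (pt R s k u) (pt R s k v) = |R| * dist u v := by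
  rw [pt, pt, dist_eq_norm, ← smul_sub, norm_smul, norm_mul, norm_mul, sg_norm, ee_norm, one_mul,
    mul_one, Complex.norm_real, Real.norm_eq_abs, dist_eq_norm]

lemma pt_om (R : ℝ) (s : Bool) (k : ZMod p) (u : H) : pt R s k (om p • u) = pt R s (k + 1) u := by
  rw [pt, pt, smul_smul, ee_add, ee_one]
  congr 1
  ring

open Classical in
/-- the regular polygon -/
noncomputable def poly (R : ℝ) (u : H) : Finset H := Finset.univ.image fun k : ZMod p => pt R true k u

lemma poly_nonempty (R : ℝ) (u : H) : (poly (p := p) R u).Nonempty := by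
  classical
  exact Finset.univ_nonempty.image _

lemma poly_card (R : ℝ) (u : H) : (poly (p := p) R u).card ≤ p := by
  classical
  refine Finset.card_image_le.trans ?_
  rw [Finset.card_univ, ZMod.card]

lemma poly_om (R : ℝ) (u : H) : poly (p := p) R (om p • u) = poly (p := p) R u := by
  classical
  ext y
  simp only [poly, Finset.mem_image, Finset.mem_univ, true_and, pt_om]
  constructor
  · rintro ⟨k, rfl⟩
    exact ⟨k + 1, rfl⟩
  · rintro ⟨k, rfl⟩
    exact ⟨k - 1, by rw [sub_add_cancel]⟩

lemma poly_dist (R : ℝ) (u v : H) :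
    Metric.hausdorffDist (poly (p := p) R u : Set H) (poly (p := p) R v) ≤ |R| * dist u v := by
  classical
  apply Metric.hausdorffDist_le_of_mem_dist (by positivity)
  · intro y hy
    simp only [poly, Finset.coe_image, Finset.coe_univ, image_univ, mem_range] at hy
    obtain ⟨k, rfl⟩ := hy
    refine ⟨pt R true k v, ?_, (pt_dist R true k u v).le⟩
    simp [poly]
  · intro y hy
    simp only [poly, Finset.coe_image, Finset.coe_univ, image_univ, mem_range] at hy
    obtain ⟨k, rfl⟩ := hy
    refine ⟨pt R true k u, ?_, ?_⟩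
    · simp [poly]
    · rw [dist_comm]
      exact (pt_dist R true k u v).le

lemma edist_ne_top {s t : Finset H} (hs : s.Nonempty) (ht : t.Nonempty) :
    Metric.hausdorffEDist (s : Set H) (t : Set H) ≠ ⊤ :=
  Metric.hausdorffEDist_ne_top_of_nonempty_of_bounded hs ht s.finite_toSet.isBounded
    t.finite_toSet.isBounded

/-- **Main theorem.** No map to sets with at most `p - 1` points which is continuous on the regular
polygons with `p` vertices and circumradius `R` moves all of them by at most `D < R`. -/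
theorem no_close_map (hp : p ≠ 2) (ι : (Fin p → ℂ) →L[ℂ] H) (hι : Function.Injective ι)
    (R D L : ℝ) (hDR : D < R) (hR : 0 < R) (B : H → Finset H)
    (hne : ∀ u, ‖u‖ = 1 → (B u).Nonempty) (hcard : ∀ u, ‖u‖ = 1 → (B u).card ≤ p - 1)
    (hLip : ∀ u v, ‖u‖ = 1 → ‖v‖ = 1 →
      Metric.hausdorffDist (B u : Set H) (B v : Set H) ≤ L * dist u v)
    (hclose : ∀ u, ‖u‖ = 1 → Metric.infDist (pt R true (0 : ZMod p) u) (B u : Set H) ≤ D)
    (hinv : ∀ u, ‖u‖ = 1 → B (om p • u) = B u) : False := by
  have hpp : p.Prime := Fact.out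
  let F : Bool → ZMod p → (Fin p → ℂ) → ℝ := fun s k x =>
    Metric.infDist (pt R s k (nrm ι x)) (B (nrm ι x) : Set H)
  have hL : ∀ u v, ‖u‖ = 1 → ‖v‖ = 1 → ∀ s (k : ZMod p),
      Metric.infDist (pt R s k u) (B u : Set H) ≤
        Metric.infDist (pt R s k v) (B v : Set H) + (|R| + L) * dist u v := by
    intro u v hu hv s k
    have h1 : Metric.infDist (pt R s k u) (B u : Set H) ≤
        Metric.infDist (pt R s k u) (B v : Set H) +
          Metric.hausdorffDist (B v : Set H) (B u : Set H) :=
      Metric.infDist_le_infDist_add_hausdorffDist (edist_ne_top (hne v hv) (hne u hu))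
    have h2 : Metric.infDist (pt R s k u) (B v : Set H) ≤
        Metric.infDist (pt R s k v) (B v : Set H) + dist (pt R s k u) (pt R s k v) :=
      Metric.infDist_le_infDist_add_dist
    have h3 := hLip v u hv hu
    rw [pt_dist] at h2
    rw [dist_comm v u] at h3
    linarith [add_mul |R| L (dist u v)]
  have hF : ∀ s k x, x ≠ 0 → ContinuousAt (F s k) x := by
    intro s k x hx
    have hcont := nrm_cont hι hx
    have hlim : Tendsto (fun y => (|R| + L) * dist (nrm ι y) (nrm ι x)) (𝓝 x) (𝓝 0) := by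
      have h1 : Tendsto (fun y => dist (nrm ι y) (nrm ι x)) (𝓝 x) (𝓝 0) :=
        tendsto_iff_dist_tendsto_zero.1 hcont
      simpa using h1.const_mul (|R| + L)
    rw [ContinuousAt, tendsto_iff_dist_tendsto_zero]
    refine squeeze_zero' (Eventually.of_forall fun _ => dist_nonneg) ?_ hlim
    filter_upwards [isOpen_ne.mem_nhds hx] with y hy
    have hy' : y ≠ 0 := hy
    have a1 := hL _ _ (nrm_norm hι hy') (nrm_norm hι hx) s k
    have a2 := hL _ _ (nrm_norm hι hx) (nrm_norm hι hy') s k
    rw [dist_comm (nrm ι x)] at a2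
    rw [Real.dist_eq, abs_le]
    constructor
    · show _ ≤ Metric.infDist _ _ - Metric.infDist _ _
      linarith
    · show Metric.infDist _ _ - Metric.infDist _ _ ≤ _
      linarith
  have hom0 : ∀ x : Fin p → ℂ, x = 0 → (fun i => om p * x i) = x := by
    rintro x rfl
    ext i
    simp
  -- equivariance needs a unit vector: redefine at the origin
  let F' : Bool → ZMod p → (Fin p → ℂ) → ℝ := fun s k x => if x = 0 then 0 else F s k x
  have hequi : ∀ s k x, F' s k (fun i => om p * x i) = F' s (k + 1) x := by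
    intro s k x
    by_cases hx : x = 0
    · have h1 : (fun i => om p * x i) = 0 := by rw [hom0 x hx, hx]
      show (if (fun i => om p * x i) = 0 then 0 else F s k fun i => om p * x i) =
        (if x = 0 then 0 else F s (k + 1) x)
      rw [if_pos h1, if_pos hx]
    · have h1 : (fun i => om p * x i) ≠ 0 := by
        intro h
        apply hx
        ext i
        have h2 := congrFun h i
        simp only [Pi.zero_apply, mul_eq_zero] at h2
        rcases h2 with h2 | h2
        · exfalso
          have := om_norm (p := p)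
          rw [h2, norm_zero] at this
          exact zero_ne_one this
        · exact h2
      simp only [F', h1, hx, if_false]
      show Metric.infDist _ _ = Metric.infDist _ _
      rw [nrm_om, pt_om, hinv _ (nrm_norm hι hx)]
  have hF' : ∀ s k x, x ≠ 0 → ContinuousAt (F' s k) x := by
    intro s k x hx
    refine (hF s k x hx).congr ?_
    filter_upwards [isOpen_ne.mem_nhds hx] with y hy
    simp only [F']
    rw [if_neg hy]
  obtain ⟨x, hx, hconst'⟩ := exists_const hp F' hF' hequi
  have hconst : ∀ s k l, F s k x = F s l x := by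
    intro s k l
    have := hconst' s k l
    simpa only [F', if_neg hx] using this
  -- the chosen polygon
  obtain ⟨u, hu⟩ : ∃ u, u = nrm ι x := ⟨_, rfl⟩
  have hun : ‖u‖ = 1 := by rw [hu]; exact nrm_norm hι hx
  have hFu : ∀ s k, F s k x = Metric.infDist (pt R s k u) (B u : Set H) := by
    intro s k
    rw [hu]
  obtain ⟨s0, hs0⟩ : ∃ s0, ∀ s, F s0 0 x ≤ F s 0 x := by
    rcases le_total (F true 0 x) (F false 0 x) with h | h
    · exact ⟨true, fun s => by cases s <;> simp [h]⟩
    · exact ⟨false, fun s => by cases s <;> simp [h]⟩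
  have hmin : ∀ s k k', F s0 k x ≤ F s k' x := by
    intro s k k'
    rw [hconst s0 k 0, hconst s k' 0]
    exact hs0 s
  -- nearest points
  have hnear : ∀ k : ZMod p, ∃ b ∈ B u, F s0 k x = dist (pt R s0 k u) b := by
    intro k
    obtain ⟨b, hb, hbd⟩ := (B u).finite_toSet.isCompact.exists_infDist_eq_dist
      (hne u hun) (pt R s0 k u)
    exact ⟨b, hb, by rw [hFu, hbd]⟩
  choose b hbB hbd using hnear
  obtain ⟨k, l, hkl, hbkl⟩ : ∃ k l : ZMod p, k ≠ l ∧ b k = b l := by
    have hc : (B u).card < (Finset.univ : Finset (ZMod p)).card := by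
      rw [Finset.card_univ, ZMod.card]
      have := hcard u hun
      have := hpp.two_le
      omega
    obtain ⟨k, -, l, -, h1, h2⟩ := Finset.exists_ne_map_eq_of_card_lt_of_maps_to hc
      (fun k _ => hbB k)
    exact ⟨k, l, h1, h2⟩
  obtain ⟨z, hz⟩ : ∃ z : ℂ, z = inner ℂ u (b k) := ⟨_, rfl⟩
  have hwn : ∀ s (j : ZMod p), ‖sg s * ee p j‖ = 1 := by
    intro s j
    rw [norm_mul, sg_norm, ee_norm, one_mul]
  have hsq : ∀ s (j : ZMod p), dist (pt R s j u) (b k) ^ 2 =
      R ^ 2 + ‖b k‖ ^ 2 - 2 * R * ((starRingEnd ℂ) (sg s * ee p j) * z).re := by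
    intro s j
    rw [hz]
    exact dist_sq hun (hwn s j) R
  -- minimality at `k` and `l`
  have hle : ∀ s (j : ZMod p), ((starRingEnd ℂ) (sg s * ee p j) * z).re ≤
      ((starRingEnd ℂ) (sg s0 * ee p k) * z).re := by
    intro s j
    have h1 : F s0 k x ≤ dist (pt R s j u) (b k) := by
      refine (hmin s k j).trans ?_
      rw [hFu]
      exact Metric.infDist_le_dist_of_mem (hbB k)
    rw [hbd k] at h1
    have h2 : dist (pt R s0 k u) (b k) ^ 2 ≤ dist (pt R s j u) (b k) ^ 2 :=
      pow_le_pow_left₀ dist_nonneg h1 2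
    rw [hsq, hsq] at h2
    nlinarith
  have heq : ((starRingEnd ℂ) (sg s0 * ee p k) * z).re = ((starRingEnd ℂ) (sg s0 * ee p l) * z).re := by
    have h1 : dist (pt R s0 k u) (b k) = dist (pt R s0 l u) (b k) := by
      rw [← hbd k, hbkl, ← hbd l]
      exact hconst s0 k l
    have h2 : dist (pt R s0 k u) (b k) ^ 2 = dist (pt R s0 l u) (b k) ^ 2 := by rw [h1]
    rw [hsq, hsq] at h2
    nlinarith
  have hpos : 0 < ((starRingEnd ℂ) (sg s0 * ee p k) * z).re := by
    have h1 : dist (pt R s0 k u) (b k) ≤ D := by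
      rw [← hbd k]
      refine (hmin true k 0).trans ?_
      rw [hFu]
      exact hclose u hun
    have h2 : dist (pt R s0 k u) (b k) ^ 2 < R ^ 2 :=
      pow_lt_pow_left₀ (h1.trans_lt hDR) dist_nonneg two_ne_zero
    rw [hsq] at h2
    have h3 : 0 ≤ ‖b k‖ ^ 2 := by positivity
    by_contra hcon
    rw [not_lt] at hcon
    nlinarith
  -- the middle root of unity
  have hodd : (2 : ZMod p) ≠ 0 := by
    intro h
    have h1 : ((2 : ℕ) : ZMod p) = 0 := by exact_mod_cast h
    rw [ZMod.natCast_eq_zero_iff] at h1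
    have h2 := Nat.le_of_dvd (by norm_num) h1
    have h3 := hpp.two_le
    omega
  obtain ⟨m, hm⟩ : ∃ m : ZMod p, m + m = k + l := ⟨2⁻¹ * (k + l), by
    rw [← two_mul, ← mul_assoc, mul_inv_cancel₀ hodd, one_mul]⟩
  have hvv : ee p m * ee p m = (sg s0 * ee p k) * (sg s0 * ee p l) := by
    rw [← ee_add, hm, ee_add]
    calc ee p k * ee p l = (sg s0 * sg s0) * (ee p k * ee p l) := by rw [sg_sq, one_mul]
      _ = _ := by ring
  have hne' : sg s0 * ee p k ≠ sg s0 * ee p l := by
    intro h
    have h1 : sg s0 ≠ 0 := by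
      intro h2
      have := sg_norm s0
      rw [h2, norm_zero] at this
      exact zero_ne_one this
    exact hkl (ee_inj (mul_left_cancel₀ h1 h))
  rcases mid_larger (hwn s0 k) (ee_norm m) hvv hne' heq hpos with h | h
  · have h1 := hle true m
    have e1 : sg true * ee p m = ee p m := by simp [sg]
    rw [e1] at h1
    linarith
  · have h1 := hle false m
    have e1 : sg false * ee p m = -ee p m := by simp [sg]
    rw [e1] at h1
    linarith

end hilbert

end Pool.Agent.TH594.Retr
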