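import Mathlib
import Pool.Agent.TH594.Retr.Main

/-!
The Lipschitz constants of retractions of the spaces of finite subsets of `ℓ²` are unbounded.
-/

set_option autoImplicit false
set_option linter.unusedSectionVars false

open Set Filter Topology

namespace Pool.Agent.TH594.Retr

/-- the complex Hilbert space `ℓ²` -/
abbrev L2 : Type := lp (fun _ : ℕ => ℂ) 2

/-- the linear embedding of `ℂ^p` -/
noncomputable def emb (p : ℕ) : (Fin p → ℂ) →L[ℂ] L2 :=
  LinearMap.toContinuousLinearMap
    (∑ i : Fin p, (LinearMap.proj i : (Fin p → ℂ) →ₗ[ℂ] ℂ).smulRight (lp.single 2 (i : ℕ) (1 : ℂ)))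

lemma emb_apply (p : ℕ) (x : Fin p → ℂ) :
    emb p x = ∑ i : Fin p, x i • (lp.single 2 (i : ℕ) (1 : ℂ) : L2) := by
  simp [emb]

lemma emb_inj (p : ℕ) : Function.Injective (emb p) := by
  intro x y h
  ext j
  have h1 : (emb p x) (j : ℕ) = (emb p y) (j : ℕ) := by rw [h]
  have key : ∀ z : Fin p → ℂ, (emb p z) (j : ℕ) = z j := by
    intro z
    rw [emb_apply, lp.coeFn_sum, Finset.sum_apply, Finset.sum_eq_single j]
    · simp [lp.single_apply]
    · intro i _ hij
      have : (j : ℕ) ≠ (i : ℕ) := fun h => hij (Fin.ext h.symm)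
      simp [lp.single_apply, this]
    · simp
  rw [key, key] at h1
  exact h1

lemma om_sub_one {p : ℕ} (hp : 0 < p) : ‖om p - 1‖ ≤ 2 * Real.pi / p := by
  have h : om p = Complex.exp (Complex.I * ((2 * Real.pi / p : ℝ) : ℂ)) := by
    unfold om
    congr 1
    push_cast
    ring
  rw [h]
  have := Real.norm_exp_I_mul_ofReal_sub_one_le (x := 2 * Real.pi / p)
  refine this.trans ?_
  rw [Real.norm_of_nonneg (by positivity)]

section
variable {p : ℕ} [Fact p.Prime] {H : Type} [NormedAddCommGroup H] [InnerProductSpace ℂ H]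

lemma hclose_aux (hp : p ≠ 2) (C : ℝ) (hC : 0 ≤ C) (r : Finset H → Finset H)
    (h1 : ∀ s : Finset H, s.Nonempty → s.card ≤ p → (r s).Nonempty ∧ (r s).card ≤ p - 1)
    (h2 : ∀ s : Finset H, s.Nonempty → s.card ≤ p - 1 → r s = s)
    (h3 : ∀ s t : Finset H, s.Nonempty → s.card ≤ p → t.Nonempty → t.card ≤ p →
      Metric.hausdorffDist ((r s : Finset H) : Set H) ((r t : Finset H) : Set H)
        ≤ C * Metric.hausdorffDist ((s : Finset H) : Set H) ((t : Finset H) : Set H))
    (R : ℝ) (hR : 0 ≤ R) (hR1 : R * ‖om p - 1‖ ≤ 1) (u : H) (hu : ‖u‖ = 1) :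
    Metric.infDist (pt R true (0 : ZMod p) u) (r (poly (p := p) R u) : Set H) ≤ C + 1 := by
  classical
  have hpp : p.Prime := Fact.out
  have hA := poly_nonempty (p := p) R u
  have hAc := poly_card (p := p) R u
  let t : Finset H := (Finset.univ.erase (0 : ZMod p)).image fun k => pt R true k u
  have ht1 : t.Nonempty := by
    apply Finset.Nonempty.image
    exact ⟨1, Finset.mem_erase.2 ⟨one_ne_zero, Finset.mem_univ _⟩⟩
  have ht2 : t.card ≤ p - 1 := by
    refine Finset.card_image_le.trans ?_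
    rw [Finset.card_erase_of_mem (Finset.mem_univ _), Finset.card_univ, ZMod.card]
  have ht3 : r t = t := h2 t ht1 ht2
  have hd : Metric.hausdorffDist (poly (p := p) R u : Set H) (t : Set H) ≤ 1 := by
    apply Metric.hausdorffDist_le_of_mem_dist zero_le_one
    · intro y hy
      simp only [poly, Finset.coe_image, Finset.coe_univ, image_univ, mem_range] at hy
      obtain ⟨k, rfl⟩ := hy
      by_cases hk : k = 0
      · refine ⟨pt R true (1 : ZMod p) u, ?_, ?_⟩
        · simp only [t, Finset.coe_image]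
          exact ⟨1, by simp, rfl⟩
        · rw [hk, pt, pt, dist_eq_norm, ← sub_smul, norm_smul, hu, mul_one, ee_zero, ee_one]
          have e : (R : ℂ) * (sg true * 1) - R * (sg true * om p) = -(R * (om p - 1)) := by
            simp only [sg, if_true]
            ring
          rw [e, norm_neg, norm_mul, Complex.norm_real, Real.norm_of_nonneg hR]
          exact hR1
      · refine ⟨pt R true k u, ?_, by rw [dist_self]; exact zero_le_one⟩
        simp only [t, Finset.coe_image]
        exact ⟨k, by simp [hk], rfl⟩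
    · intro y hy
      refine ⟨y, ?_, by rw [dist_self]; exact zero_le_one⟩
      simp only [t, Finset.coe_image] at hy
      obtain ⟨k, -, rfl⟩ := hy
      simp [poly]
  have hrA := h1 _ hA hAc
  have h4 := h3 _ t hA hAc ht1 (ht2.trans (Nat.sub_le _ _))
  rw [ht3] at h4
  have h5 : Metric.hausdorffDist (poly (p := p) R u : Set H) (r (poly (p := p) R u) : Set H) ≤ C + 1 := by
    have h6 := Metric.hausdorffDist_triangle (s := (poly (p := p) R u : Set H)) (t := (t : Set H))
      (u := (r (poly (p := p) R u) : Set H)) (edist_ne_top hA ht1)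
    rw [Metric.hausdorffDist_comm (s := (t : Set H))] at h6
    have h7 : C * Metric.hausdorffDist (poly (p := p) R u : Set H) (t : Set H) ≤ C * 1 :=
      mul_le_mul_of_nonneg_left hd hC
    linarith
  refine le_trans (Metric.infDist_le_hausdorffDist_of_mem ?_ (edist_ne_top hA hrA.1)) h5
  simp [poly]

end

/-- In `ℓ²` the Lipschitz constants of retractions onto the sets with at most `n - 1` points are
not bounded. -/
theorem unbounded (C : ℝ)
    (hC : ∀ n : ℕ, 2 ≤ n →
        ∃ r : Finset L2 → Finset L2,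
          (∀ s : Finset L2, s.Nonempty → s.card ≤ n →
              (r s).Nonempty ∧ (r s).card ≤ n - 1) ∧
          (∀ s : Finset L2, s.Nonempty → s.card ≤ n - 1 → r s = s) ∧
          (∀ s t : Finset L2, s.Nonempty → s.card ≤ n → t.Nonempty → t.card ≤ n →
              Metric.hausdorffDist ((r s : Finset L2) : Set L2) ((r t : Finset L2) : Set L2)
                ≤ C * Metric.hausdorffDist ((s : Finset L2) : Set L2) ((t : Finset L2) : Set L2))) :
    False := by
  obtain ⟨C', hC'0, hCC'⟩ : ∃ C' : ℝ, 0 ≤ C' ∧ C ≤ C' := ⟨max C 0, le_max_right _ _, le_max_left _ _⟩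
  obtain ⟨m, hm⟩ := exists_nat_gt (7 * (C' + 1))
  obtain ⟨p, hmp, hpp⟩ := Nat.exists_infinite_primes (max m 3)
  have hp3 : 3 ≤ p := (le_max_right _ _).trans hmp
  have hmp' : m ≤ p := (le_max_left _ _).trans hmp
  have hfact : Fact p.Prime := ⟨hpp⟩
  have hp2 : p ≠ 2 := by omega
  obtain ⟨r, h1, h2, h3⟩ := hC p (by omega)
  have h3' : ∀ s t : Finset L2, s.Nonempty → s.card ≤ p → t.Nonempty → t.card ≤ p →
      Metric.hausdorffDist ((r s : Finset L2) : Set L2) ((r t : Finset L2) : Set L2)
        ≤ C' * Metric.hausdorffDist ((s : Finset L2) : Set L2) ((t : Finset L2) : Set L2) := by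
    intro s t a b c d
    exact (h3 s t a b c d).trans (mul_le_mul_of_nonneg_right hCC' Metric.hausdorffDist_nonneg)
  have hpr : (0 : ℝ) < p := by exact_mod_cast hpp.pos
  have hR : (0 : ℝ) < (p : ℝ) / 7 := by positivity
  have hpi : Real.pi < 3.15 := Real.pi_lt_d2
  have hR1 : (p : ℝ) / 7 * ‖om p - 1‖ ≤ 1 := by
    have h := om_sub_one hpp.pos
    calc (p : ℝ) / 7 * ‖om p - 1‖ ≤ (p : ℝ) / 7 * (2 * Real.pi / p) := by gcongr
      _ = 2 * Real.pi / 7 := by field_simp
      _ ≤ 1 := by rw [div_le_one (by norm_num)]; linarith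
  have hDR : C' + 1 < (p : ℝ) / 7 := by
    rw [lt_div_iff₀ (by norm_num)]
    have : (m : ℝ) ≤ p := by exact_mod_cast hmp'
    linarith
  refine no_close_map (p := p) (H := L2) hp2 (emb p) (emb_inj p) ((p : ℝ) / 7) (C' + 1)
    (C' * |(p : ℝ) / 7|) hDR hR (fun u => r (poly (p := p) ((p : ℝ) / 7) u))
    (fun u _ => (h1 _ (poly_nonempty _ u) (poly_card _ u)).1)
    (fun u _ => (h1 _ (poly_nonempty _ u) (poly_card _ u)).2) ?_ ?_ ?_
  · intro u v _ _
    refine (h3' _ _ (poly_nonempty _ u) (poly_card _ u) (poly_nonempty _ v) (poly_card _ v)).trans ?_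
    rw [mul_assoc]
    exact mul_le_mul_of_nonneg_left (poly_dist _ u v) hC'0
  · intro u hu
    exact hclose_aux hp2 C' hC'0 r h1 h2 h3' _ hR.le hR1 u hu
  · intro u _
    rw [poly_om]

end Pool.Agent.TH594.Retr
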